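import Mathlib
import Pool.Agent.Work.MP_5e3363_co.Orient

namespace MP5e3363

open Finset Relation

/-!
# Dominating circuits of cubic graphs lie in circuit double covers

A finite graph with vertex type `V` and edge type `E` (parallel edges allowed) is given by the map
`ends : E → Sym2 V` sending an edge to its unordered pair of ends.
-/

section Definitions

variable {V E : Type*} [DecidableEq V]

/-- No edge is a loop. -/
def Loopless (ends : E → Sym2 V) : Prop := ∀ e, ¬ (ends e).IsDiag

/-- The number of edges of `D` at the vertex `v`. -/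
def deg (ends : E → Sym2 V) (D : Finset E) (v : V) : ℕ := (D.filter (fun e => v ∈ ends e)).card

/-- Every vertex has degree three. -/
def IsCubic [Fintype E] (ends : E → Sym2 V) : Prop := ∀ v, deg ends univ v = 3

/-- Two edges of `D` that share an end. -/
def Adj (ends : E → Sym2 V) (D : Finset E) (a b : E) : Prop :=
  a ∈ D ∧ b ∈ D ∧ ∃ v, v ∈ ends a ∧ v ∈ ends b

/-- The edge set `D` is the edge set of a circuit, that is of a connected 2-regular subgraph: it is
nonempty, every vertex is on no or on exactly two edges of `D`, and any two edges of `D` are joined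
by a chain of edges of `D` in which consecutive edges share an end. -/
structure IsCircuit (ends : E → Sym2 V) (D : Finset E) : Prop where
  nonempty : D.Nonempty
  two_regular : ∀ v, deg ends D v = 0 ∨ deg ends D v = 2
  connected : ∀ a ∈ D, ∀ b ∈ D, ReflTransGen (Adj ends D) a b

/-- The circuit `C` is dominating: every edge has at least one end on `C`. -/
def IsDominating (ends : E → Sym2 V) (C : Finset E) : Prop :=
  ∀ e, ∃ v, v ∈ ends e ∧ ∃ f ∈ C, v ∈ ends f

/-- `F` is a circuit double cover: a finite family (multiset) of circuits such that every edge lies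
in exactly two members of `F`. -/
def IsCDC [DecidableEq E] (ends : E → Sym2 V) (F : Multiset (Finset E)) : Prop :=
  (∀ D ∈ F, IsCircuit ends D) ∧ ∀ e, F.countP (fun D => e ∈ D) = 2

end Definitions

section

set_option linter.unusedSectionVars false

universe u v

variable {V : Type u} {E : Type v} [Fintype V] [DecidableEq V] [Fintype E] [DecidableEq E]

/-- a circuit is cyclically parametrised -/
theorem circuit_param (ends : E → Sym2 V) (hl : Loopless ends) (C : Finset E)
    (hC : IsCircuit ends C) :
    ∃ (P : Type (max u v)) (_ : Fintype P) (_ : Nonempty P) (next : Equiv.Perm P) (vtx : P → V)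
      (arc : P → E), (∀ x y, next.SameCycle x y) ∧ Function.Injective vtx ∧
      Function.Injective arc ∧ (∀ p, ends (arc p) = s(vtx p, vtx (next p))) ∧
      ∀ e, e ∈ C ↔ ∃ p, arc p = e := by
  classical
  let D := {p : V × E // p.2 ∈ C ∧ p.1 ∈ ends p.2}
  have ext : ∀ p q : D, p.1.1 = q.1.1 → p.1.2 = q.1.2 → p = q := by
    intro p q h1 h2
    exact Subtype.ext (Prod.ext h1 h2)
  -- the two involutions
  have hmu : ∀ p : D, ∃ q : D, q.1.2 = p.1.2 ∧ q.1.1 ≠ p.1.1 ∧
      ends p.1.2 = s(p.1.1, q.1.1) := by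
    rintro ⟨⟨v, e⟩, he, hv⟩
    refine ⟨⟨⟨Sym2.Mem.other hv, e⟩, he, Sym2.other_mem hv⟩, rfl, ?_, ?_⟩
    · exact Sym2.other_ne (hl e) hv
    · exact (Sym2.other_spec hv).symm
  have hrho : ∀ p : D, ∃ q : D, q.1.1 = p.1.1 ∧ q.1.2 ≠ p.1.2 ∧
      ∀ e ∈ C, p.1.1 ∈ ends e → e = p.1.2 ∨ e = q.1.2 := by
    rintro ⟨⟨v, e⟩, he, hv⟩
    simp only at he hv
    have hmem : e ∈ C.filter (fun e => v ∈ ends e) := by simp [he, hv]
    have h2 : (C.filter (fun e => v ∈ ends e)).card = 2 := by
      rcases hC.two_regular v with h | h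
      · unfold deg at h
        rw [Finset.card_eq_zero] at h
        rw [h] at hmem
        exact absurd hmem (Finset.notMem_empty _)
      · exact h
    obtain ⟨a, b, hab, hset⟩ := Finset.card_eq_two.1 h2
    have hfil : ∀ x, (x ∈ C ∧ v ∈ ends x) ↔ (x = a ∨ x = b) := by
      intro x
      have : x ∈ C.filter (fun e => v ∈ ends e) ↔ x ∈ ({a, b} : Finset E) := by rw [hset]
      simpa using this
    rcases (hfil e).1 ⟨he, hv⟩ with h | h
    · subst h
      have hb := (hfil b).2 (Or.inr rfl)
      exact ⟨⟨⟨v, b⟩, hb.1, hb.2⟩, rfl, hab.symm, fun x hx hvx => (hfil x).1 ⟨hx, hvx⟩⟩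
    · subst h
      have ha := (hfil a).2 (Or.inl rfl)
      exact ⟨⟨⟨v, a⟩, ha.1, ha.2⟩, rfl, hab, fun x hx hvx => ((hfil x).1 ⟨hx, hvx⟩).symm⟩
  choose mu hmu1 hmu2 hmu3 using hmu
  choose rho hrho1 hrho2 hrho3 using hrho
  have same_e : ∀ p q : D, q.1.2 = p.1.2 → q = p ∨ q = mu p := by
    intro p q h
    have h1 : q.1.1 ∈ ends p.1.2 := by rw [← h]; exact q.2.2
    rw [hmu3 p, Sym2.mem_iff] at h1
    rcases h1 with h1 | h1
    · left; exact ext _ _ h1 h
    · right; exact ext _ _ h1 (h.trans (hmu1 p).symm)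
  have same_v : ∀ p q : D, q.1.1 = p.1.1 → q = p ∨ q = rho p := by
    intro p q h
    rcases hrho3 p q.1.2 q.2.1 (by rw [← h]; exact q.2.2) with h1 | h1
    · left; exact ext _ _ h h1
    · right; exact ext _ _ (h.trans (hrho1 p).symm) h1
  have hmm : ∀ p, mu (mu p) = p := by
    intro p
    rcases same_e p (mu (mu p)) ((hmu1 _).trans (hmu1 _)) with h | h
    · exact h
    · exact absurd (congrArg (fun q : D => q.1.1) h) (hmu2 (mu p))
  have hmn : ∀ p, mu p ≠ p := fun p h => hmu2 p (congrArg (fun q : D => q.1.1) h)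
  have hrr : ∀ p, rho (rho p) = p := by
    intro p
    rcases same_v p (rho (rho p)) ((hrho1 _).trans (hrho1 _)) with h | h
    · exact h
    · exact absurd (congrArg (fun q : D => q.1.2) h) (hrho2 (rho p))
  have hrn : ∀ p, rho p ≠ p := fun p h => hrho2 p (congrArg (fun q : D => q.1.2) h)
  let μ : Equiv.Perm D := ⟨mu, mu, hmm, hmm⟩
  let ρ : Equiv.Perm D := ⟨rho, rho, hrr, hrr⟩
  have htr : ∀ Q : D → Prop, (∀ x, Q x → Q (μ x)) → (∀ x, Q x → Q (ρ x)) → (∃ x, Q x) →
      ∀ y, Q y := by
    rintro Q h1 h2 ⟨x, hx⟩ y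
    have key : ∀ b, ReflTransGen (Adj ends C) x.1.2 b → ∀ z : D, z.1.2 = b → Q z := by
      intro b hb
      induction hb with
      | refl =>
        intro z hz
        rcases same_e x z hz with h | h
        · rw [h]; exact hx
        · rw [h]; exact h1 x hx
      | tail _ hab ih =>
        intro z hz
        obtain ⟨ha, hb, v, hva, hvb⟩ := hab
        have q1 := ih ⟨⟨v, _⟩, ha, hva⟩ rfl
        have q2 : Q (⟨⟨v, _⟩, hb, hvb⟩ : D) := by
          rcases same_v ⟨⟨v, _⟩, ha, hva⟩ (⟨⟨v, _⟩, hb, hvb⟩ : D) rfl with h | h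
          · rw [h]; exact q1
          · rw [h]; exact h2 _ q1
        rcases same_e (⟨⟨v, _⟩, hb, hvb⟩ : D) z hz with h | h
        · rw [h]; exact q2
        · rw [h]; exact h1 _ q2
    exact key y.1.2 (hC.connected _ x.2.1 _ y.2.1) y rfl
  -- a starting dart
  obtain ⟨e0, he0⟩ := hC.nonempty
  obtain ⟨d0⟩ : Nonempty D := by
    induction h : ends e0 using Sym2.inductionOn with
    | hf a b => exact ⟨⟨⟨a, e0⟩, he0, by rw [h]; exact Sym2.mem_mk_left a b⟩⟩
  obtain ⟨O, hO0, hOμ, hOρ, hOs⟩ := orient μ ρ hmm hmn hrr hrn htr d0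
  have hφ : ∀ x, O ((ρ * μ) x) ↔ O x := by
    intro x
    rw [Equiv.Perm.mul_apply, hOρ, hOμ, not_not]
  refine ⟨{x : D // O x}, inferInstance, ⟨⟨d0, hO0⟩⟩, (ρ * μ).subtypePerm hφ,
    fun p => p.1.1.1, fun p => p.1.1.2, ?_, ?_, ?_, ?_, ?_⟩
  · rintro ⟨x, hx⟩ ⟨y, hy⟩
    obtain ⟨n, hn⟩ := hOs x y hx hy
    refine ⟨n, ?_⟩
    apply Subtype.ext
    rw [Equiv.Perm.subtypePerm_zpow]
    exact hn
  · rintro ⟨x, hx⟩ ⟨y, hy⟩ h
    rcases same_v x y h.symm with h' | h'
    · exact Subtype.ext h'.symm
    · exfalso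
      have := (hOρ x).1 (by change O (rho x); rw [← h']; exact hy)
      exact this hx
  · rintro ⟨x, hx⟩ ⟨y, hy⟩ h
    rcases same_e x y h.symm with h' | h'
    · exact Subtype.ext h'.symm
    · exfalso
      have := (hOμ x).1 (by change O (mu x); rw [← h']; exact hy)
      exact this hx
  · rintro ⟨x, hx⟩
    change ends x.1.2 = s(x.1.1, (rho (mu x)).1.1)
    rw [hrho1]
    exact hmu3 x
  · intro e
    constructor
    · intro he
      obtain ⟨d, hd⟩ : ∃ d : D, d.1.2 = e := by
        induction h : ends e using Sym2.inductionOn with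
        | hf a b => exact ⟨⟨⟨a, e⟩, he, by rw [h]; exact Sym2.mem_mk_left a b⟩, rfl⟩
      by_cases hOd : O d
      · exact ⟨⟨d, hOd⟩, hd⟩
      · refine ⟨⟨mu d, (hOμ d).2 hOd⟩, ?_⟩
        change (mu d).1.2 = e
        rw [hmu1, hd]
    · rintro ⟨p, rfl⟩
      exact p.1.2.1

/-- decomposition of a 2-regular edge set into circuits -/
theorem decompose (ends : E → Sym2 V) (K : Finset E)
    (h : ∀ v, deg ends K v = 0 ∨ deg ends K v = 2) :
    ∃ S : Finset (Finset E), (∀ D ∈ S, IsCircuit ends D) ∧
      ∀ e, (S.filter (fun D => e ∈ D)).card = if e ∈ K then 1 else 0 := by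
  classical
  set comp : E → Finset E := fun e => K.filter (fun f => ReflTransGen (Adj ends K) e f) with hcomp
  have hmem : ∀ e f, f ∈ comp e ↔ f ∈ K ∧ ReflTransGen (Adj ends K) e f := by
    intro e f; simp [hcomp]
  have hsymm : ∀ a b, ReflTransGen (Adj ends K) a b → ReflTransGen (Adj ends K) b a := by
    intro a b hab
    induction hab with
    | refl => exact ReflTransGen.refl
    | tail _ h2 ih =>
      obtain ⟨q1, q2, v, q3, q4⟩ := h2
      exact ReflTransGen.head ⟨q2, q1, v, q4, q3⟩ ih
  refine ⟨K.image comp, ?_, ?_⟩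
  · intro D hD
    rw [mem_image] at hD
    obtain ⟨e, he, rfl⟩ := hD
    refine ⟨⟨e, (hmem _ _).2 ⟨he, ReflTransGen.refl⟩⟩, ?_, ?_⟩
    · intro v
      by_cases hv : ∃ f ∈ comp e, v ∈ ends f
      · obtain ⟨f, hf, hvf⟩ := hv
        rw [hmem] at hf
        have e1 : (comp e).filter (fun e => v ∈ ends e) = K.filter (fun e => v ∈ ends e) := by
          ext x
          simp only [mem_filter]
          constructor
          · rintro ⟨h1, h2⟩
            exact ⟨((hmem _ _).1 h1).1, h2⟩
          · rintro ⟨h1, h2⟩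
            refine ⟨(hmem _ _).2 ⟨h1, ?_⟩, h2⟩
            exact hf.2.tail ⟨hf.1, h1, v, hvf, h2⟩
        unfold deg
        rw [e1]
        exact h v
      · left
        unfold deg
        rw [Finset.card_eq_zero, Finset.filter_eq_empty_iff]
        intro x hx hvx
        exact hv ⟨x, hx, hvx⟩
    · intro a ha b hb
      rw [hmem] at ha hb
      have hab : ReflTransGen (Adj ends K) a b := (hsymm _ _ ha.2).trans hb.2
      have key : ∀ c, ReflTransGen (Adj ends K) a c → ReflTransGen (Adj ends (comp e)) a c := by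
        intro c hc
        induction hc with
        | refl => exact ReflTransGen.refl
        | tail h1 h2 ih =>
          refine ih.tail ⟨?_, ?_, h2.2.2⟩
          · exact (hmem _ _).2 ⟨h2.1, ha.2.trans h1⟩
          · exact (hmem _ _).2 ⟨h2.2.1, (ha.2.trans h1).tail h2⟩
      exact key b hab
  · intro e
    by_cases he : e ∈ K
    · rw [if_pos he, Finset.card_eq_one]
      refine ⟨comp e, ?_⟩
      ext D
      simp only [mem_filter, mem_image, mem_singleton]
      constructor
      · rintro ⟨⟨f, hf, rfl⟩, h2⟩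
        rw [hmem] at h2
        ext x
        rw [hmem, hmem]
        constructor
        · rintro ⟨h3, h4⟩
          exact ⟨h3, (hsymm _ _ h2.2).trans h4⟩
        · rintro ⟨h3, h4⟩
          exact ⟨h3, h2.2.trans h4⟩
      · rintro rfl
        exact ⟨⟨e, he, rfl⟩, (hmem _ _).2 ⟨he, ReflTransGen.refl⟩⟩
    · rw [if_neg he, Finset.card_eq_zero, Finset.filter_eq_empty_iff]
      intro D hD heD
      rw [mem_image] at hD
      obtain ⟨f, hf, rfl⟩ := hD
      exact he ((hmem _ _).1 heD).1

theorem main (ends : E → Sym2 V) (hl : Loopless ends) (h3 : IsCubic ends) (C : Finset E)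
    (hC : IsCircuit ends C) (hd : IsDominating ends C) :
    ∃ F : Multiset (Finset E), IsCDC ends F ∧ C ∈ F := by
  classical
  obtain ⟨P, _, _, next, vtx, arc, hcyc, hvi, hai, hends, hCarc⟩ := circuit_param ends hl C hC
  have onC : ∀ v e, e ∈ C → v ∈ ends e → ∃ p, vtx p = v := by
    intro v e he hv
    obtain ⟨p, rfl⟩ := (hCarc e).1 he
    rw [hends] at hv
    rcases Sym2.mem_iff.1 hv with rfl | rfl
    · exact ⟨p, rfl⟩
    · exact ⟨next p, rfl⟩
  have arcC : ∀ p, arc p ∈ C := fun p => (hCarc _).2 ⟨p, rfl⟩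
  have arc_at : ∀ p, vtx p ∈ ends (arc p) := by
    intro p; rw [hends]; exact Sym2.mem_mk_left _ _
  have arc_at' : ∀ p, vtx p ∈ ends (arc (next.symm p)) := by
    intro p; rw [hends, Equiv.apply_symm_apply]; exact Sym2.mem_mk_right _ _
  have cedges : ∀ p e, e ∈ C → vtx p ∈ ends e → e = arc p ∨ e = arc (next.symm p) := by
    intro p e he hp
    obtain ⟨q, rfl⟩ := (hCarc e).1 he
    rw [hends] at hp
    rcases Sym2.mem_iff.1 hp with h | h
    · left; rw [hvi h]
    · right; rw [hvi h, Equiv.symm_apply_apply]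
  have next_ne : ∀ p, next.symm p ≠ p := by
    intro p hp
    have h1 : next p = p := by
      conv_lhs => rw [← hp]
      rw [Equiv.apply_symm_apply]
    apply hl (arc p)
    rw [hends, h1]
    exact Sym2.mk_isDiag_iff.2 rfl
  have arcs_ne : ∀ p, arc (next.symm p) ≠ arc p := fun p h => next_ne p (hai h)
  -- the third edge at a vertex of `C`
  have third : ∀ p, ∃ e, e ∉ C ∧ vtx p ∈ ends e ∧ ∀ e', e' ∉ C → vtx p ∈ ends e' → e' = e := by
    intro p
    have hcard := h3 (vtx p)
    unfold deg at hcard
    have hsub : ({arc p, arc (next.symm p)} : Finset E) ⊆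
        univ.filter (fun e => vtx p ∈ ends e) := by
      intro e he
      rw [mem_insert, mem_singleton] at he
      rw [mem_filter]
      rcases he with rfl | rfl
      · exact ⟨mem_univ _, arc_at p⟩
      · exact ⟨mem_univ _, arc_at' p⟩
    have h1 : ((univ.filter (fun e => vtx p ∈ ends e)) \
        ({arc p, arc (next.symm p)} : Finset E)).card = 1 := by
      rw [Finset.card_sdiff_of_subset hsub, hcard, Finset.card_pair (arcs_ne p).symm]
    obtain ⟨e, he⟩ := Finset.card_eq_one.1 h1
    have hiff : ∀ x, (vtx p ∈ ends x ∧ x ∉ C) ↔ x = e := by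
      intro x
      rw [← mem_singleton, ← he, mem_sdiff, mem_filter, mem_insert, mem_singleton]
      constructor
      · rintro ⟨h1, h2⟩
        refine ⟨⟨mem_univ _, h1⟩, ?_⟩
        rintro (rfl | rfl)
        · exact h2 (arcC _)
        · exact h2 (arcC _)
      · rintro ⟨⟨_, h1⟩, h2⟩
        exact ⟨h1, fun hx => h2 (cedges p x hx h1)⟩
    have hee := (hiff e).2 rfl
    exact ⟨e, hee.2, hee.1, fun e' h1 h2 => (hiff e').1 ⟨h2, h1⟩⟩
  choose off hoff1 hoff2 hoff3 using third
  have hcover : ∀ e, e ∉ C → ∃ p, off p = e := by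
    intro e he
    obtain ⟨v, hv, f, hf, hvf⟩ := hd e
    obtain ⟨p, rfl⟩ := onC v f hf hvf
    exact ⟨p, (hoff3 p e he hv).symm⟩
  -- chords and claws
  let Ch := {e : E // e ∉ C ∧ ∀ v ∈ ends e, ∃ p, vtx p = v}
  let Cl := {w : V // ∀ p, vtx p ≠ w}
  have two : ∀ (z : Sym2 V) (a b : V), a ∈ z → b ∈ z → a ≠ b → z = s(a, b) := by
    intro z a b ha hb hab
    exact (Sym2.mem_and_mem_iff hab).1 ⟨ha, hb⟩
  have hcl : ∀ p, ∃ y : Ch ⊕ Cl, (∀ c : Ch, y = Sum.inl c ↔ off p = c.1) ∧
      (∀ w : Cl, y = Sum.inr w ↔ w.1 ∈ ends (off p)) := by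
    intro p
    by_cases h : ∀ v ∈ ends (off p), ∃ q, vtx q = v
    · refine ⟨Sum.inl ⟨off p, hoff1 p, h⟩, ?_, ?_⟩
      · intro c
        rw [Sum.inl.injEq, Subtype.ext_iff]
      · intro w
        constructor
        · intro h'
          exact absurd h' (by simp)
        · intro h'
          obtain ⟨q, hq⟩ := h w.1 h'
          exact absurd hq (w.2 q)
    · push Not at h
      obtain ⟨w, hw, hw'⟩ := h
      refine ⟨Sum.inr ⟨w, hw'⟩, ?_, ?_⟩
      · intro c
        constructor
        · intro h'
          exact absurd h' (by simp)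
        · intro h'
          rw [h'] at hw
          obtain ⟨q, hq⟩ := c.2.2 w hw
          exact absurd hq (hw' q)
      · intro w'
        rw [Sum.inr.injEq, Subtype.ext_iff]
        constructor
        · rintro rfl
          exact hw
        · intro h'
          rw [two _ (vtx p) w (hoff2 p) hw (hw' p)] at h'
          rcases Sym2.mem_iff.1 h' with h'' | h''
          · exact absurd h''.symm (w'.2 p)
          · exact h''.symm
  choose g hg1 hg2 using hcl
  have f2 : ∀ c : Ch, (univ.filter (fun p => g p = Sum.inl c)).card = 2 := by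
    rintro ⟨e, he1, he2⟩
    obtain ⟨a, b, hab⟩ : ∃ a b, ends e = s(a, b) := by
      induction h : ends e using Sym2.inductionOn with
      | hf a b => exact ⟨a, b, rfl⟩
    have hne : a ≠ b := by
      rintro rfl
      apply hl e
      rw [hab]
      exact Sym2.mk_isDiag_iff.2 rfl
    obtain ⟨pa, hpa⟩ := he2 a (by rw [hab]; exact Sym2.mem_mk_left _ _)
    obtain ⟨pb, hpb⟩ := he2 b (by rw [hab]; exact Sym2.mem_mk_right _ _)
    rw [Finset.card_eq_two]
    refine ⟨pa, pb, ?_, ?_⟩
    · rintro rfl
      exact hne (hpa.symm.trans hpb)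
    · ext p
      rw [mem_filter, mem_insert, mem_singleton, hg1]
      constructor
      · rintro ⟨_, h⟩
        have h1 := hoff2 p
        rw [h, hab] at h1
        rcases Sym2.mem_iff.1 h1 with h1 | h1
        · left; exact hvi (h1.trans hpa.symm)
        · right; exact hvi (h1.trans hpb.symm)
      · rintro (rfl | rfl)
        · exact ⟨mem_univ _, (hoff3 _ e he1 (by rw [hpa, hab]; exact Sym2.mem_mk_left _ _)).symm⟩
        · exact ⟨mem_univ _, (hoff3 _ e he1 (by rw [hpb, hab]; exact Sym2.mem_mk_right _ _)).symm⟩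
  -- the edges at a vertex off `C`
  have offinj : ∀ (w : Cl) p q, w.1 ∈ ends (off p) → off p = off q → p = q := by
    intro w p q hw h
    have h1 := hoff2 q
    rw [← h, two _ (vtx p) w.1 (hoff2 p) hw (w.2 p)] at h1
    rcases Sym2.mem_iff.1 h1 with h1 | h1
    · exact (hvi h1).symm
    · exact absurd h1 (w.2 q)
  have notC : ∀ (w : Cl) e, w.1 ∈ ends e → e ∉ C := by
    intro w e hw he
    obtain ⟨p, hp⟩ := onC _ _ he hw
    exact w.2 p hp
  have f3 : ∀ w : Cl, (univ.filter (fun p => g p = Sum.inr w)).card = 3 := by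
    intro w
    have hcard := h3 w.1
    unfold deg at hcard
    rw [← hcard]
    apply Finset.card_bij (fun p _ => off p)
    · intro p hp
      rw [mem_filter, hg2] at hp
      rw [mem_filter]
      exact ⟨mem_univ _, hp.2⟩
    · intro p hp q _ h
      rw [mem_filter, hg2] at hp
      exact offinj w p q hp.2 h
    · intro e he
      rw [mem_filter] at he
      obtain ⟨p, rfl⟩ := hcover e (notC w e he.2)
      refine ⟨p, ?_, rfl⟩
      rw [mem_filter, hg2]
      exact ⟨mem_univ _, he.2⟩
  obtain ⟨m, l, hl1, hl2, hl3⟩ := exists_labelling_fib g f2 f3 next hcyc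
  -- the classes
  have same_off : ∀ p q, off p = off q →
      s(l (next.symm p), l p) = s(l (next.symm q), l q) := by
    intro p q h
    by_cases hpq : p = q
    · rw [hpq]
    · have hv : vtx p ≠ vtx q := fun h' => hpq (hvi h')
      have h1 := two (ends (off p)) (vtx p) (vtx q) (hoff2 p) (by rw [h]; exact hoff2 q) hv
      let c : Ch := ⟨off p, hoff1 p, by
        intro v hv
        rw [h1] at hv
        rcases Sym2.mem_iff.1 hv with rfl | rfl
        · exact ⟨p, rfl⟩
        · exact ⟨q, rfl⟩⟩
      exact hl2 p q c ((hg1 p c).2 rfl) ((hg1 q c).2 h.symm)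
  let K : Fin m → Finset E := fun t => univ.filter (fun e => (∃ p, arc p = e ∧ l p = t) ∨
    ∃ p, off p = e ∧ t ∈ s(l (next.symm p), l p))
  have hKa : ∀ p t, arc p ∈ K t ↔ l p = t := by
    intro p t
    simp only [K, mem_filter, mem_univ, true_and]
    constructor
    · rintro (⟨q, h1, h2⟩ | ⟨q, h1, h2⟩)
      · rw [← hai h1]; exact h2
      · exact absurd (arcC p) (h1 ▸ hoff1 q)
    · intro h
      exact Or.inl ⟨p, rfl, h⟩
  have hKo : ∀ p t, off p ∈ K t ↔ t ∈ s(l (next.symm p), l p) := by
    intro p t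
    simp only [K, mem_filter, mem_univ, true_and]
    constructor
    · rintro (⟨q, h1, h2⟩ | ⟨q, h1, h2⟩)
      · exact absurd (arcC q) (h1 ▸ hoff1 p)
      · rw [← same_off q p h1]; exact h2
    · intro h
      exact Or.inr ⟨p, rfl, h⟩
  have hreg : ∀ t v, deg ends (K t) v = 0 ∨ deg ends (K t) v = 2 := by
    intro t v
    by_cases hv : ∃ p, vtx p = v
    · obtain ⟨p, rfl⟩ := hv
      have n1 : arc (next.symm p) ≠ arc p := arcs_ne p
      have n2 : arc (next.symm p) ≠ off p := fun h => hoff1 p (h ▸ arcC _)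
      have n3 : arc p ≠ off p := fun h => hoff1 p (h ▸ arcC _)
      have e1 : (K t).filter (fun e => vtx p ∈ ends e) =
          ({arc (next.symm p), arc p, off p} : Finset E).filter (fun e => e ∈ K t) := by
        ext x
        simp only [mem_filter, mem_insert, mem_singleton]
        constructor
        · rintro ⟨h1, h2⟩
          refine ⟨?_, h1⟩
          by_cases hx : x ∈ C
          · rcases cedges p x hx h2 with h | h
            · exact Or.inr (Or.inl h)
            · exact Or.inl h
          · exact Or.inr (Or.inr (hoff3 p x hx h2))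
        · rintro ⟨h1, h2⟩
          refine ⟨h2, ?_⟩
          rcases h1 with rfl | rfl | rfl
          · exact arc_at' p
          · exact arc_at p
          · exact hoff2 p
      have e2 : deg ends (K t) (vtx p) = (if l (next.symm p) = t then 1 else 0) +
          ((if l p = t then 1 else 0) + (if t ∈ s(l (next.symm p), l p) then 1 else 0)) := by
        unfold deg
        rw [e1, Finset.card_filter, Finset.sum_insert (by simp [n1, n2]),
          Finset.sum_insert (by simp [n3]), Finset.sum_singleton]
        simp only [hKa, hKo]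
      rw [e2]
      have hne := hl1 p
      simp only [Sym2.mem_iff]
      by_cases ta : l (next.symm p) = t
      · right
        have tb : ¬ l p = t := fun h => hne (ta.trans h.symm)
        simp [ta, tb]
      · by_cases tb : l p = t
        · right
          simp [ta, tb]
        · left
          have ta' : ¬ t = l (next.symm p) := fun h => ta h.symm
          have tb' : ¬ t = l p := fun h => tb h.symm
          simp [ta, tb, ta', tb']
    · have hw : ∀ p, vtx p ≠ v := fun p hp => hv ⟨p, hp⟩
      let w : Cl := ⟨v, hw⟩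
      have e1 : deg ends (K t) v =
          (univ.filter (fun p => g p = Sum.inr w ∧ t ∈ s(l (next.symm p), l p))).card := by
        unfold deg
        symm
        apply Finset.card_bij (fun p _ => off p)
        · intro p hp
          rw [mem_filter, hg2] at hp
          rw [mem_filter, hKo]
          exact ⟨hp.2.2, hp.2.1⟩
        · intro p hp q _ h
          rw [mem_filter, hg2] at hp
          exact offinj w p q hp.2.1 h
        · intro e he
          rw [mem_filter] at he
          obtain ⟨p, rfl⟩ := hcover e (notC w e he.2)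
          refine ⟨p, ?_, rfl⟩
          rw [mem_filter, hg2, ← hKo]
          exact ⟨mem_univ _, he.2, he.1⟩
      rw [e1]
      exact hl3 w t
  choose S hS1 hS2 using fun t => decompose ends (K t) (hreg t)
  refine ⟨C ::ₘ ∑ t, (S t).val, ⟨?_, ?_⟩, Multiset.mem_cons_self _ _⟩
  · intro D hD
    rw [Multiset.mem_cons, Multiset.mem_sum] at hD
    rcases hD with rfl | ⟨t, _, ht⟩
    · exact hC
    · exact hS1 t D ht
  · intro e
    have e1 : (∑ t, (S t).val).countP (fun D => e ∈ D) = ∑ t, if e ∈ K t then 1 else 0 := by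
      have := map_sum (Multiset.countPAddMonoidHom (fun D : Finset E => e ∈ D))
        (fun t => (S t).val) univ
      rw [Multiset.coe_countPAddMonoidHom] at this
      rw [this]
      refine Finset.sum_congr rfl ?_
      intro t _
      rw [← hS2 t e, Multiset.countP_eq_card_filter]
      rfl
    rw [Multiset.countP_cons, e1]
    by_cases he : e ∈ C
    · obtain ⟨p, rfl⟩ := (hCarc e).1 he
      rw [if_pos he]
      simp only [hKa]
      simp
    · obtain ⟨p, rfl⟩ := hcover e he
      rw [if_neg he]
      simp only [hKo]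
      rw [← Finset.card_filter]
      have hne := hl1 p
      have : (univ.filter (fun t => t ∈ s(l (next.symm p), l p))) =
          {l (next.symm p), l p} := by
        ext t
        simp
      rw [this, Finset.card_pair hne]

end

end MP5e3363

namespace Pool.Agent.Results.MP_5e3363_co.DominatingCDC

open MP5e3363

/-- **Every dominating circuit `C` of a finite loopless cubic graph (parallel edges allowed) is a
member of some circuit double cover.** -/
theorem result {V E : Type*} [Fintype V] [DecidableEq V] [Fintype E] [DecidableEq E]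
    (ends : E → Sym2 V) (hloop : Loopless ends) (hcubic : IsCubic ends)
    (C : Finset E) (hC : IsCircuit ends C) (hdom : IsDominating ends C) :
    ∃ F : Multiset (Finset E), IsCDC ends F ∧ C ∈ F :=
  main ends hloop hcubic C hC hdom

end Pool.Agent.Results.MP_5e3363_co.DominatingCDC
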